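import Pool.Agent.helper97.IRO.Spec

/-! # Row iro:CT4: conjugates of cofinal elements are cofinal -/

set_option autoImplicit false

open MeasureTheory Pool.Agent.LOF

namespace Pool.Agent.IRO

theorem CT4_pos (hAL : AL_stmt) (G : Type) [Group G] (P : G → Prop) (hP : Cone P) (hC : Conr P)
    (H : Subgroup G) (f h : G) (hf : Cof P H f) (hpos : P f) (hh : h ∈ H) :
    Cof P H (h * f * h⁻¹) := by
  refine ⟨H.mul_mem (H.mul_mem hh hf.1) (H.inv_mem hh), fun k hk => ?_⟩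
  obtain ⟨m, hm⟩ := hf.2 (h⁻¹ * k) (H.mul_mem (H.inv_mem hh) hk)
  obtain ⟨n, hn⟩ := hAL G P hP hC H f h⁻¹ hf hpos (H.inv_mem hh)
  refine ⟨m + n, ?_⟩
  have e : (h⁻¹ * k)⁻¹ * f ^ m * (f ^ n * h⁻¹) = k⁻¹ * (h * f * h⁻¹) ^ (m + (n : ℤ)) := by
    rw [conj_zpow, zpow_add, zpow_natCast]
    group
  rw [← e]
  exact hP.mul _ _ hm hn

theorem CT4 (hAL : AL_stmt) : CT4_stmt := by
  intro G _ P hP hC H f h hf hh
  have hne : f ≠ 1 := hf.ne_one hP
  rcases hP.tri f hne with h1 | h1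
  · exact CT4_pos hAL G P hP hC H f h hf h1 hh
  · have h2 := CT4_pos hAL G P hP hC H f⁻¹ h hf.inv h1 hh
    have h3 := h2.inv
    rwa [mul_inv_rev, mul_inv_rev, inv_inv, inv_inv, ← mul_assoc] at h3

end Pool.Agent.IRO
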